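import Mathlib

/-!
Parseval's identity for power series on circles.
-/

set_option autoImplicit false

open MeasureTheory Set Metric Filter Topology
open scoped ENNReal NNReal Real

namespace Pool.Agent.Helper22.Marshall

theorem integral_exp_int (n : ℤ) (hn : n ≠ 0) :
    ∫ θ in (-π)..π, Complex.exp ((n : ℂ) * (θ : ℂ) * Complex.I) = 0 := by
  have h1 : ∀ θ : ℝ, (n : ℂ) * (θ : ℂ) * Complex.I = (n : ℂ) * Complex.I * (θ : ℂ) := by
    intro θ; ring
  simp_rw [h1]
  have hne : (n : ℂ) * Complex.I ≠ 0 :=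
    mul_ne_zero (Int.cast_ne_zero.mpr hn) Complex.I_ne_zero
  rw [integral_exp_mul_complex hne]
  have h2 : Complex.exp ((n : ℂ) * Complex.I * ((π : ℝ) : ℂ))
      = Complex.exp ((n : ℂ) * Complex.I * ((-π : ℝ) : ℂ)) := by
    rw [Complex.exp_eq_exp_iff_exists_int]
    refine ⟨n, ?_⟩
    push_cast
    ring
  rw [h2, sub_self, zero_div]

theorem hasSum_mul_aux (F G : ℕ → ℂ) (s t : ℂ) (h0 : HasSum F s) (h1 : HasSum G t)
    (h : Summable fun n => ‖F n‖) (h2 : Summable fun n => ‖G n‖) :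
    HasSum (fun p : ℕ × ℕ => F p.1 * G p.2) (s * t) :=
  h0.mul h1 (summable_mul_of_summable_norm h h2)

theorem parseval_aux (c : ℕ → ℂ) (r : ℝ) (hr : 0 ≤ r)
    (hs : Summable fun n => ‖c n‖ * r ^ n) (f : ℝ → ℂ)
    (hf : ∀ θ : ℝ, HasSum (fun n => c n * ((r : ℂ) * Complex.exp (θ * Complex.I)) ^ n) (f θ)) :
    HasSum (fun n => ‖c n‖ ^ 2 * r ^ (2 * n)) ((1 / (2 * π)) * ∫ θ in (-π)..π, ‖f θ‖ ^ 2) := by
  obtain ⟨F, hF⟩ : ∃ F : ℕ → ℝ → ℂ,
    F = fun (n : ℕ) (θ : ℝ) => c n * ((r : ℂ) * Complex.exp ((θ : ℂ) * Complex.I)) ^ n :=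
    ⟨_, rfl⟩
  have hnormF : ∀ n θ, ‖F n θ‖ = ‖c n‖ * r ^ n := by
    intro n θ
    simp only [hF, norm_mul, norm_pow, Complex.norm_exp_ofReal_mul_I, mul_one]
    rw [Complex.norm_real, Real.norm_of_nonneg hr]
  have hsn : ∀ θ, Summable fun n => ‖F n θ‖ := by
    intro θ
    simp_rw [hnormF]
    exact hs
  have hprod : ∀ θ, HasSum (fun p : ℕ × ℕ => F p.1 θ * (starRingEnd ℂ) (F p.2 θ))
      (f θ * (starRingEnd ℂ) (f θ)) := by
    intro θ
    have h1 : HasSum (fun n => (starRingEnd ℂ) (F n θ)) ((starRingEnd ℂ) (f θ)) := by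
      have := (hf θ).map (starRingEnd ℂ) Complex.continuous_conj
      rw [hF]
      exact this
    have h0 : HasSum (fun n => F n θ) (f θ) := by
      rw [hF]
      exact hf θ
    have h2 : Summable fun n => ‖(starRingEnd ℂ) (F n θ)‖ := by
      simp_rw [Complex.norm_conj]
      exact hsn θ
    exact hasSum_mul_aux (fun n => F n θ) (fun n => (starRingEnd ℂ) (F n θ)) _ _ h0 h1 (hsn θ) h2

  have hFc : ∀ n, Continuous (F n) := by
    intro n
    simp only [hF]
    fun_prop
  have hint : HasSum (fun p : ℕ × ℕ => ∫ θ in (-π)..π, F p.1 θ * (starRingEnd ℂ) (F p.2 θ))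
      (∫ θ in (-π)..π, f θ * (starRingEnd ℂ) (f θ)) := by
    have hpi : (-π : ℝ) ≤ π := by linarith [Real.pi_pos]
    have key : ∀ g : ℝ → ℂ, ∫ θ in (-π)..π, g θ = ∫ θ in Ioc (-π) π, g θ := fun g =>
      intervalIntegral.integral_of_le hpi
    simp_rw [key]
    have h2 := hasSum_integral_of_summable_integral_norm (μ := volume.restrict (Ioc (-π) π))
      (F := fun (p : ℕ × ℕ) (θ : ℝ) => F p.1 θ * (starRingEnd ℂ) (F p.2 θ)) ?_ ?_
    · have h3 : (fun θ => ∑' p : ℕ × ℕ, F p.1 θ * (starRingEnd ℂ) (F p.2 θ))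
          = fun θ => f θ * (starRingEnd ℂ) (f θ) := by
        funext θ
        exact (hprod θ).tsum_eq
      rw [h3] at h2
      exact h2
    · intro p
      apply Continuous.integrableOn_Ioc
      exact (hFc p.1).mul (Complex.continuous_conj.comp (hFc p.2))
    · have h4 : ∀ p : ℕ × ℕ, ∫ θ in Ioc (-π) π, ‖F p.1 θ * (starRingEnd ℂ) (F p.2 θ)‖
          = (2 * π) * ((‖c p.1‖ * r ^ p.1) * (‖c p.2‖ * r ^ p.2)) := by
        intro p
        have : ∀ θ, ‖F p.1 θ * (starRingEnd ℂ) (F p.2 θ)‖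
            = (‖c p.1‖ * r ^ p.1) * (‖c p.2‖ * r ^ p.2) := by
          intro θ
          rw [norm_mul, Complex.norm_conj, hnormF, hnormF]
        simp_rw [this]
        rw [setIntegral_const]
        simp only [smul_eq_mul]
        rw [Real.volume_real_Ioc_of_le hpi]
        ring
      simp_rw [h4]
      apply Summable.mul_left
      exact summable_mul_of_summable_norm
        (f := fun n => ‖c n‖ * r ^ n) (g := fun n => ‖c n‖ * r ^ n)
        (by simpa [abs_of_nonneg hr] using hs) (by simpa [abs_of_nonneg hr] using hs)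
  -- compute the integrals
  have hval : ∀ p : ℕ × ℕ, ∫ θ in (-π)..π, F p.1 θ * (starRingEnd ℂ) (F p.2 θ)
      = if p.1 = p.2 then ((2 * π * (‖c p.1‖ ^ 2 * r ^ (2 * p.1)) : ℝ) : ℂ) else 0 := by
    rintro ⟨m, n⟩
    have h5 : ∀ θ : ℝ, F m θ * (starRingEnd ℂ) (F n θ)
        = (c m * (starRingEnd ℂ) (c n) * (r : ℂ) ^ (m + n)) *
          Complex.exp (((m : ℤ) - (n : ℤ) : ℤ) * (θ : ℂ) * Complex.I) := by
      intro θ
      simp only [hF, map_mul, map_pow, Complex.conj_ofReal]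
      rw [← Complex.exp_conj]
      simp only [map_mul, Complex.conj_ofReal, Complex.conj_I]
      rw [mul_pow, mul_pow, ← Complex.exp_nat_mul, ← Complex.exp_nat_mul]
      have : Complex.exp (((m : ℤ) - (n : ℤ) : ℤ) * (θ : ℂ) * Complex.I)
          = Complex.exp ((m : ℂ) * ((θ : ℂ) * Complex.I))
            * Complex.exp ((n : ℂ) * ((θ : ℂ) * -Complex.I)) := by
        rw [← Complex.exp_add]
        congr 1
        push_cast
        ring
      rw [this]
      ring
    simp only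
    simp_rw [h5]
    rw [intervalIntegral.integral_const_mul]
    by_cases hmn : m = n
    · subst hmn
      rw [if_pos rfl]
      simp only [sub_self, Int.cast_zero, zero_mul, Complex.exp_zero]
      rw [intervalIntegral.integral_const, Complex.mul_conj, Complex.normSq_eq_norm_sq]
      simp only [sub_neg_eq_add, Complex.real_smul, mul_one]
      push_cast
      ring
    · rw [if_neg hmn, integral_exp_int _ (sub_ne_zero.mpr (by exact_mod_cast hmn)), mul_zero]
  simp_rw [hval] at hint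
  -- restrict to the diagonal
  have hdiag : HasSum (fun n : ℕ => ((2 * π * (‖c n‖ ^ 2 * r ^ (2 * n)) : ℝ) : ℂ))
      (∫ θ in (-π)..π, f θ * (starRingEnd ℂ) (f θ)) := by
    have hinj : Function.Injective (fun n : ℕ => (n, n)) := by
      intro a b h
      exact (Prod.mk.inj h).1
    have := (hinj.hasSum_iff (f := fun p : ℕ × ℕ =>
      if p.1 = p.2 then ((2 * π * (‖c p.1‖ ^ 2 * r ^ (2 * p.1)) : ℝ) : ℂ) else 0)
      (a := ∫ θ in (-π)..π, f θ * (starRingEnd ℂ) (f θ)) ?_).mpr hint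
    · simpa [Function.comp_def] using this
    · rintro ⟨a, b⟩ hab
      rw [if_neg]
      intro h
      apply hab
      refine ⟨a, ?_⟩
      simp only [Prod.mk.injEq, true_and]
      exact h
  have hreal : (∫ θ in (-π)..π, f θ * (starRingEnd ℂ) (f θ))
      = ((∫ θ in (-π)..π, ‖f θ‖ ^ 2 : ℝ) : ℂ) := by
    rw [← intervalIntegral.integral_ofReal]
    congr 1
    funext θ
    rw [Complex.mul_conj, Complex.normSq_eq_norm_sq]
  rw [hreal] at hdiag
  have h6 := Complex.hasSum_ofReal.mp hdiag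
  have h7 := h6.mul_left (1 / (2 * π))
  have hpi := Real.pi_pos
  have h8 : (fun n => ‖c n‖ ^ 2 * r ^ (2 * n))
      = fun n => 1 / (2 * π) * (2 * π * (‖c n‖ ^ 2 * r ^ (2 * n))) := by
    funext n
    field_simp
  rw [h8]
  exact h7

end Pool.Agent.Helper22.Marshall
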