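import Mathlib
import Pool.Agent.Helper22.Marshall.Parseval

/-!
Taylor coefficients of holomorphic functions on the unit disc, and Parseval's identity.
-/

set_option autoImplicit false

open MeasureTheory Set Metric Filter Topology
open scoped ENNReal NNReal Real Nat

namespace Pool.Agent.Helper22.Marshall

/-- Taylor coefficient at zero. -/
noncomputable def coeff (f : ℂ → ℂ) (n : ℕ) : ℂ := (n ! : ℂ)⁻¹ * iteratedDeriv n f 0

theorem coeff_zero (f : ℂ → ℂ) : coeff f 0 = f 0 := by simp [coeff]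

theorem coeff_one (f : ℂ → ℂ) : coeff f 1 = deriv f 0 := by simp [coeff]

theorem hasSum_coeff {f : ℂ → ℂ} (hf : DifferentiableOn ℂ f (ball 0 1)) {z : ℂ}
    (hz : ‖z‖ < 1) : HasSum (fun n => coeff f n * z ^ n) (f z) := by
  have h := Complex.hasSum_taylorSeries_on_ball (c := 0) (r := 1) (z := z) hf (by simpa using hz)
  have : (fun n => coeff f n * z ^ n)
      = fun n : ℕ => (n ! : ℂ)⁻¹ • (z - 0) ^ n • iteratedDeriv n f 0 := by
    funext n
    simp only [coeff, smul_eq_mul, sub_zero]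
    ring
  rw [this]
  exact h

theorem coeff_deriv (f : ℂ → ℂ) (n : ℕ) :
    coeff (deriv f) n = ((n : ℂ) + 1) * coeff f (n + 1) := by
  simp only [coeff, Nat.factorial_succ, Nat.cast_mul, Nat.cast_succ]
  rw [iteratedDeriv_succ']
  have h1 : ((n : ℂ) + 1) ≠ 0 := Nat.cast_add_one_ne_zero n
  have h2 : ((n ! : ℕ) : ℂ) ≠ 0 := Nat.cast_ne_zero.mpr (Nat.factorial_ne_zero n)
  field_simp

theorem differentiableOn_deriv {f : ℂ → ℂ} (hf : DifferentiableOn ℂ f (ball 0 1)) :
    DifferentiableOn ℂ (deriv f) (ball 0 1) := hf.deriv isOpen_ball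

theorem hasSum_coeff_deriv {f : ℂ → ℂ} (hf : DifferentiableOn ℂ f (ball 0 1)) {z : ℂ}
    (hz : ‖z‖ < 1) : HasSum (fun n : ℕ => (n : ℂ) * coeff f n * z ^ n) (z * deriv f z) := by
  have h := (hasSum_coeff (differentiableOn_deriv hf) hz).mul_left z
  have h2 : HasSum (fun n : ℕ => ((n + 1 : ℕ) : ℂ) * coeff f (n + 1) * z ^ (n + 1))
      (z * deriv f z) := by
    have : (fun n : ℕ => ((n + 1 : ℕ) : ℂ) * coeff f (n + 1) * z ^ (n + 1))
        = fun n => z * (coeff (deriv f) n * z ^ n) := by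
      funext n
      rw [coeff_deriv]
      push_cast
      ring
    rw [this]
    exact h
  rw [← hasSum_nat_add_iff' 1]
  simpa using h2

theorem parseval_comb {f : ℂ → ℂ} (hf : DifferentiableOn ℂ f (ball 0 1)) (α β : ℂ) {r : ℝ}
    (hr : 0 ≤ r) (hr1 : r < 1) :
    HasSum (fun n : ℕ => ‖(α * n + β) * coeff f n‖ ^ 2 * r ^ (2 * n))
      ((1 / (2 * π)) * ∫ θ in (-π)..π,
        ‖α * (((r : ℂ) * Complex.exp ((θ : ℂ) * Complex.I)) *
          deriv f ((r : ℂ) * Complex.exp ((θ : ℂ) * Complex.I)))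
          + β * f ((r : ℂ) * Complex.exp ((θ : ℂ) * Complex.I))‖ ^ 2) := by
  have hsum : ∀ z : ℂ, ‖z‖ < 1 → HasSum (fun n : ℕ => (α * n + β) * coeff f n * z ^ n)
      (α * (z * deriv f z) + β * f z) := by
    intro z hz
    have h1 := (hasSum_coeff_deriv hf hz).mul_left α
    have h2 := (hasSum_coeff hf hz).mul_left β
    have h3 := h1.add h2
    have : (fun n : ℕ => (α * n + β) * coeff f n * z ^ n)
        = fun n : ℕ => α * ((n : ℂ) * coeff f n * z ^ n) + β * (coeff f n * z ^ n) := by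
      funext n
      ring
    rw [this]
    exact h3
  have hnorm : ∀ θ : ℝ, ‖(r : ℂ) * Complex.exp ((θ : ℂ) * Complex.I)‖ = r := by
    intro θ
    rw [norm_mul, Complex.norm_exp_ofReal_mul_I, mul_one, Complex.norm_real,
      Real.norm_of_nonneg hr]
  apply parseval_aux (fun n : ℕ => (α * n + β) * coeff f n) r hr
  · have h := (hsum (r : ℂ) (by rw [Complex.norm_real, Real.norm_of_nonneg hr]; exact hr1)).summable
    have h2 := h.norm
    have : (fun n : ℕ => ‖(α * n + β) * coeff f n‖ * r ^ n)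
        = fun n : ℕ => ‖(α * n + β) * coeff f n * (r : ℂ) ^ n‖ := by
      funext n
      rw [norm_mul _ ((r : ℂ) ^ n), norm_pow, Complex.norm_real, Real.norm_of_nonneg hr]
    rw [this]
    exact h2
  · intro θ
    exact hsum _ (by rw [hnorm]; exact hr1)

end Pool.Agent.Helper22.Marshall
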