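import Mathlib
import Pool.Agent.Helper22.Marshall.CoeffMul

/-!
Taylor coefficients of separately holomorphic functions on the bidisc.
-/

set_option autoImplicit false

open MeasureTheory Set Metric Filter Topology
open scoped ENNReal NNReal Real Nat

namespace Pool.Agent.Helper22.Marshall

theorem hasSum_integral_bound {g : ℕ → ℝ → ℂ} (hg : ∀ n, Continuous (g n)) {B : ℕ → ℝ}
    (hB : Summable B) (hgB : ∀ n α, ‖g n α‖ ≤ B n) {G : ℝ → ℂ}
    (hG : ∀ α, HasSum (fun n => g n α) (G α)) :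
    HasSum (fun n => ∫ α in (-π)..π, g n α) (∫ α in (-π)..π, G α) := by
  have hpi : (-π : ℝ) ≤ π := by linarith [Real.pi_pos]
  simp_rw [intervalIntegral.integral_of_le hpi]
  have h2 := hasSum_integral_of_summable_integral_norm (μ := volume.restrict (Ioc (-π) π))
    (F := g) (fun n => (hg n).integrableOn_Ioc) ?_
  · have h3 : (fun α => ∑' n, g n α) = G := by
      funext α
      exact (hG α).tsum_eq
    rw [h3] at h2
    exact h2
  · apply (hB.mul_left (2 * π)).of_nonneg_of_le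
    · intro n
      exact integral_nonneg fun α => norm_nonneg _
    · intro n
      calc ∫ α in Ioc (-π) π, ‖g n α‖ ≤ ∫ α in Ioc (-π) π, B n := by
            apply integral_mono
            · exact ((hg n).norm).integrableOn_Ioc
            · exact integrable_const _
            · intro α; exact hgB n α
        _ = 2 * π * B n := by
            rw [setIntegral_const, smul_eq_mul, Real.volume_real_Ioc_of_le hpi]
            ring

/-- the point `r e^{iα}` -/
noncomputable def pt (r α : ℝ) : ℂ := (r : ℂ) * Complex.exp ((α : ℂ) * Complex.I)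

theorem norm_pt {r : ℝ} (hr : 0 ≤ r) (α : ℝ) : ‖pt r α‖ = r := by
  unfold pt
  rw [norm_mul, Complex.norm_exp_ofReal_mul_I, mul_one, Complex.norm_real, Real.norm_of_nonneg hr]

theorem continuous_pt (r : ℝ) : Continuous (pt r) := by unfold pt; fun_prop

theorem pt_mem {r : ℝ} (hr : 0 ≤ r) (hr1 : r < 1) (α : ℝ) : pt r α ∈ ball (0 : ℂ) 1 := by
  rw [mem_ball_zero_iff, norm_pt hr]; exact hr1

theorem circle_coeff {f : ℂ → ℂ} (hf : DifferentiableOn ℂ f (ball 0 1)) {r : ℝ} (hr : 0 ≤ r)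
    (hr1 : r < 1) (k : ℕ) :
    ∫ α in (-π)..π, f (pt r α) * Complex.exp (-(k : ℂ) * α * Complex.I)
      = 2 * π * (coeff f k * (r : ℂ) ^ k) := by
  have hs : Summable fun n => ‖coeff f n * (r : ℂ) ^ n‖ :=
    (hasSum_coeff hf (z := (r : ℂ)) (by
      rw [Complex.norm_real, Real.norm_of_nonneg hr]; exact hr1)).summable.norm
  have h1 := hasSum_integral_bound
    (g := fun n α => coeff f n * pt r α ^ n * Complex.exp (-(k : ℂ) * α * Complex.I))
    (fun n => by
      have := continuous_pt r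
      fun_prop)
    hs (G := fun α => f (pt r α) * Complex.exp (-(k : ℂ) * α * Complex.I))
    (fun n α => by
      have e : -(k : ℂ) * α * Complex.I = ((-(k : ℝ) * α : ℝ) : ℂ) * Complex.I := by push_cast; ring
      rw [norm_mul, e, Complex.norm_exp_ofReal_mul_I, mul_one, norm_mul, norm_pow, norm_pt hr,
        norm_mul, norm_pow, Complex.norm_real, Real.norm_of_nonneg hr])
    (fun α => by
      have := hasSum_coeff hf (z := pt r α) (by rw [norm_pt hr]; exact hr1)
      exact this.mul_right _)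
  have h2 : ∀ n : ℕ, ∫ α in (-π)..π, coeff f n * pt r α ^ n * Complex.exp (-(k : ℂ) * α * Complex.I)
      = if n = k then 2 * π * (coeff f k * (r : ℂ) ^ k) else 0 := by
    intro n
    have e : ∀ α : ℝ, coeff f n * pt r α ^ n * Complex.exp (-(k : ℂ) * α * Complex.I)
        = (coeff f n * (r : ℂ) ^ n) * Complex.exp (((n : ℤ) - (k : ℤ) : ℤ) * (α : ℂ) * Complex.I) := by
      intro α
      unfold pt
      have e2 : Complex.exp ((n : ℂ) * ((α : ℂ) * Complex.I))
          * Complex.exp (-(k : ℂ) * α * Complex.I)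
          = Complex.exp (((n : ℤ) - (k : ℤ) : ℤ) * (α : ℂ) * Complex.I) := by
        rw [← Complex.exp_add]
        congr 1
        push_cast
        ring
      rw [mul_pow, ← Complex.exp_nat_mul, ← e2]
      ring
    simp_rw [e]
    rw [intervalIntegral.integral_const_mul]
    split_ifs with h
    · subst h
      simp
      ring
    · rw [integral_exp_int _ (by omega), mul_zero]
  simp_rw [h2] at h1
  have h3 := h1.unique (hasSum_ite_eq k _)
  exact h3

/-- the data of a separately holomorphic continuous function -/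
structure SepHol (U : ℂ → ℂ → ℂ) : Prop where
  cont : ContinuousOn (fun p : ℂ × ℂ => U p.1 p.2) (ball 0 1 ×ˢ ball 0 1)
  left : ∀ w ∈ ball (0 : ℂ) 1, DifferentiableOn ℂ (fun z => U z w) (ball 0 1)
  right : ∀ z ∈ ball (0 : ℂ) 1, DifferentiableOn ℂ (fun w => U z w) (ball 0 1)

theorem SepHol.swap {U : ℂ → ℂ → ℂ} (h : SepHol U) : SepHol (fun z w => U w z) where
  cont := by
    have := h.cont.comp (f := fun p : ℂ × ℂ => (p.2, p.1)) (s := ball 0 1 ×ˢ ball 0 1)
      (by fun_prop) (fun p hp => ⟨hp.2, hp.1⟩)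
    exact this
  left := h.right
  right := h.left

theorem SepHol.bound {U : ℂ → ℂ → ℂ} (h : SepHol U) {r : ℝ} (hr1 : r < 1) :
    ∃ M : ℝ, 0 ≤ M ∧ ∀ z w : ℂ, ‖z‖ ≤ r → ‖w‖ ≤ r → ‖U z w‖ ≤ M := by
  have hc : IsCompact (closedBall (0 : ℂ) r ×ˢ closedBall (0 : ℂ) r) :=
    (isCompact_closedBall _ _).prod (isCompact_closedBall _ _)
  obtain ⟨M, hM⟩ := hc.exists_bound_of_continuousOn (h.cont.mono (by
    apply Set.prod_mono <;> exact closedBall_subset_ball hr1))
  refine ⟨max M 0, le_max_right _ _, fun z w hz hw => ?_⟩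
  exact (hM (z, w) ⟨mem_closedBall_zero_iff.mpr hz, mem_closedBall_zero_iff.mpr hw⟩).trans
    (le_max_left _ _)

theorem coeff_bound {f : ℂ → ℂ} (hf : DifferentiableOn ℂ f (ball 0 1)) {r M : ℝ} (hr : 0 < r)
    (hr1 : r < 1) (hM : ∀ z, ‖z‖ ≤ r → ‖f z‖ ≤ M) (n : ℕ) : ‖coeff f n‖ * r ^ n ≤ M := by
  have h1 : ‖∫ α in (-π)..π, f (pt r α) * Complex.exp (-(n : ℂ) * α * Complex.I)‖
      ≤ M * |π - (-π)| := by
    apply intervalIntegral.norm_integral_le_of_norm_le_const
    intro α _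
    have e : -(n : ℂ) * α * Complex.I = ((-(n : ℝ) * α : ℝ) : ℂ) * Complex.I := by push_cast; ring
    rw [norm_mul, e, Complex.norm_exp_ofReal_mul_I, mul_one]
    exact hM _ (norm_pt hr.le α).le
  rw [circle_coeff hf hr.le hr1, norm_mul (2 * π : ℂ), norm_mul (coeff f n), norm_pow,
    Complex.norm_real, Real.norm_of_nonneg hr.le] at h1
  have hpi := Real.pi_pos
  have h2 : |π - (-π)| = 2 * π := by rw [abs_of_pos (by linarith)]; ring
  have h3 : ‖(2 * π : ℂ)‖ = 2 * π := by
    rw [norm_mul, Complex.norm_real, Real.norm_of_nonneg hpi.le]; simp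
  rw [h2, h3] at h1
  have h4 : 2 * π * (‖coeff f n‖ * r ^ n) ≤ 2 * π * M := by linarith
  exact le_of_mul_le_mul_left h4 (by positivity)

/-- for fixed `k`, the coefficient functions are given by a power series -/
theorem SepHol.param {U : ℂ → ℂ → ℂ} (h : SepHol U) {r : ℝ} (hr : 0 < r) (hr1 : r < 1) (k : ℕ)
    {w : ℂ} (hw : ‖w‖ < r) :
    HasSum (fun l : ℕ => (∫ α in (-π)..π, coeff (U (pt r α)) l
        * Complex.exp (-(k : ℂ) * α * Complex.I)) * w ^ l)
      (2 * π * (coeff (fun z => U z w) k * (r : ℂ) ^ k)) := by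
  have hw1 : w ∈ ball (0 : ℂ) 1 := mem_ball_zero_iff.mpr (hw.trans hr1)
  rw [← circle_coeff (h.left w hw1) hr.le hr1 k]
  obtain ⟨M, hM0, hM⟩ := h.bound hr1
  have hcb : ∀ (l : ℕ) (α : ℝ), ‖coeff (U (pt r α)) l‖ * r ^ l ≤ M := fun l α =>
    coeff_bound (h.right _ (pt_mem hr.le hr1 α)) hr hr1
      (fun z hz => hM _ _ (norm_pt hr.le α).le hz) l
  have hcont : ∀ l : ℕ, Continuous (fun α : ℝ => coeff (U (pt r α)) l) := by
    intro l
    have h1 : ∀ α : ℝ, coeff (U (pt r α)) l = (2 * π * (r : ℂ) ^ l)⁻¹ *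
        ∫ β in (-π)..π, U (pt r α) (pt r β) * Complex.exp (-(l : ℂ) * β * Complex.I) := by
      intro α
      rw [circle_coeff (h.right _ (pt_mem hr.le hr1 α)) hr.le hr1]
      have h3 : (r : ℂ) ≠ 0 := by exact_mod_cast hr.ne'
      have h4 : (π : ℂ) ≠ 0 := by exact_mod_cast Real.pi_pos.ne'
      field_simp
    have h5 : (fun α : ℝ => coeff (U (pt r α)) l) = fun α => (2 * π * (r : ℂ) ^ l)⁻¹ *
        ∫ β in (-π)..π, U (pt r α) (pt r β) * Complex.exp (-(l : ℂ) * β * Complex.I) := by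
      funext α; exact h1 α
    rw [h5]
    apply Continuous.mul continuous_const
    apply intervalIntegral.continuous_parametric_intervalIntegral_of_continuous'
    apply Continuous.mul
    · have := h.cont.comp_continuous (f := fun p : ℝ × ℝ => (pt r p.1, pt r p.2))
        (by
          have := continuous_pt r
          fun_prop)
        (fun p => ⟨pt_mem hr.le hr1 _, pt_mem hr.le hr1 _⟩)
      exact this
    · fun_prop
  have hr' : ‖w‖ / r < 1 := (div_lt_one hr).mpr hw
  have h3 := hasSum_integral_bound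
    (g := fun l α => coeff (U (pt r α)) l * Complex.exp (-(k : ℂ) * α * Complex.I) * w ^ l)
    (B := fun l => M * (‖w‖ / r) ^ l)
    (G := fun α => U (pt r α) w * Complex.exp (-(k : ℂ) * α * Complex.I))
    (fun l => by
      have := hcont l
      fun_prop)
    ((summable_geometric_of_lt_one (by positivity) hr').mul_left M)
    (fun l α => by
      have e : -(k : ℂ) * α * Complex.I = ((-(k : ℝ) * α : ℝ) : ℂ) * Complex.I := by push_cast; ring
      rw [norm_mul, norm_mul, e, Complex.norm_exp_ofReal_mul_I, mul_one, norm_pow]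
      have h6 := hcb l α
      have h7 : ‖coeff (U (pt r α)) l‖ ≤ M / r ^ l := by
        rw [le_div_iff₀ (by positivity)]; exact h6
      calc ‖coeff (U (pt r α)) l‖ * ‖w‖ ^ l ≤ M / r ^ l * ‖w‖ ^ l := by gcongr
        _ = M * (‖w‖ / r) ^ l := by rw [div_pow]; ring)
    (fun α => by
      have := hasSum_coeff (h.right _ (pt_mem hr.le hr1 α)) (z := w) (by
        exact hw.trans hr1)
      have h8 := this.mul_right (Complex.exp (-(k : ℂ) * α * Complex.I))
      have e : (fun l => coeff (U (pt r α)) l * Complex.exp (-(k : ℂ) * α * Complex.I) * w ^ l)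
          = fun l => coeff (fun w => U (pt r α) w) l * w ^ l
            * Complex.exp (-(k : ℂ) * α * Complex.I) := by
        funext l; ring
      rw [e]
      exact h8)
  have e : (fun l : ℕ => (∫ α in (-π)..π, coeff (U (pt r α)) l
        * Complex.exp (-(k : ℂ) * α * Complex.I)) * w ^ l)
      = fun l : ℕ => ∫ α in (-π)..π, coeff (U (pt r α)) l
        * Complex.exp (-(k : ℂ) * α * Complex.I) * w ^ l := by
    funext l
    rw [intervalIntegral.integral_mul_const]
  rw [e]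
  exact h3

theorem SepHol.coeff_diff {U : ℂ → ℂ → ℂ} (h : SepHol U) (k : ℕ) :
    DifferentiableOn ℂ (fun w => coeff (fun z => U z w) k) (ball 0 1) := by
  intro w hw
  rw [mem_ball_zero_iff] at hw
  obtain ⟨r, hr1, hr2⟩ := exists_between hw
  have hr : 0 < r := (norm_nonneg w).trans_lt hr1
  have hr0 : (r : ℂ) ≠ 0 := by exact_mod_cast hr.ne'
  have hpi : (π : ℂ) ≠ 0 := by exact_mod_cast Real.pi_pos.ne'
  have hne : (2 * π * (r : ℂ) ^ k : ℂ) ≠ 0 :=
    mul_ne_zero (mul_ne_zero two_ne_zero hpi) (pow_ne_zero _ hr0)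
  obtain ⟨a, ha⟩ : ∃ a : ℕ → ℂ, ∀ z : ℂ, ‖z‖ < r →
      HasSum (fun l => a l * z ^ l) (coeff (fun z' => U z' z) k) := by
    refine ⟨fun l => (2 * π * (r : ℂ) ^ k)⁻¹ * ∫ α in (-π)..π, coeff (U (pt r α)) l
        * Complex.exp (-(k : ℂ) * α * Complex.I), fun z hz => ?_⟩
    have h1 := (h.param hr hr2 k hz).mul_left (2 * π * (r : ℂ) ^ k)⁻¹
    have e : (2 * π * (r : ℂ) ^ k)⁻¹ * (2 * π * (coeff (fun z' => U z' z) k * (r : ℂ) ^ k))
        = coeff (fun z' => U z' z) k := by
      field_simp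
    rw [e] at h1
    have e2 : (fun l => (2 * π * (r : ℂ) ^ k)⁻¹ * (∫ α in (-π)..π, coeff (U (pt r α)) l
        * Complex.exp (-(k : ℂ) * α * Complex.I)) * z ^ l)
        = fun l => (2 * π * (r : ℂ) ^ k)⁻¹ * ((∫ α in (-π)..π, coeff (U (pt r α)) l
        * Complex.exp (-(k : ℂ) * α * Complex.I)) * z ^ l) := by
      funext l; ring
    rw [e2]
    exact h1
  obtain ⟨r', hr1', hr2'⟩ := exists_between hr1
  have hr'0 : 0 < r' := (norm_nonneg w).trans_lt hr1'
  have hsum : Summable fun l => ‖a l‖ * r' ^ l := by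
    have := (ha (r' : ℂ) (by rw [Complex.norm_real, Real.norm_of_nonneg hr'0.le]; exact hr2')).summable.norm
    simpa [norm_mul, norm_pow, Complex.norm_real, abs_of_pos hr'0] using this
  have hd := Complex.differentiableOn_tsum_of_summable_norm (F := fun l z => a l * z ^ l) hsum
    (U := ball (0 : ℂ) r') (fun l => by fun_prop) isOpen_ball
    (fun l z hz => by
      rw [mem_ball_zero_iff] at hz
      rw [norm_mul, norm_pow]
      gcongr)
  have hww : w ∈ ball (0 : ℂ) r' := mem_ball_zero_iff.mpr hr1'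
  have h2 := hd.differentiableAt (isOpen_ball.mem_nhds hww)
  apply DifferentiableAt.differentiableWithinAt
  apply h2.congr_of_eventuallyEq
  filter_upwards [isOpen_ball.mem_nhds hww] with z hz
  rw [mem_ball_zero_iff] at hz
  exact (ha z (hz.trans hr2')).tsum_eq.symm

/-- the order of extracting coefficients does not matter -/
theorem SepHol.coeff_comm {U : ℂ → ℂ → ℂ} (h : SepHol U) (k l : ℕ) :
    coeff (fun w => coeff (fun z => U z w) k) l = coeff (fun z => coeff (fun w => U z w) l) k := by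
  have hr0 : ((1 / 2 : ℝ) : ℂ) ≠ 0 := by norm_num
  have hpi : (π : ℂ) ≠ 0 := by exact_mod_cast Real.pi_pos.ne'
  have hne : (2 * π * ((1 / 2 : ℝ) : ℂ) ^ k : ℂ) ≠ 0 :=
    mul_ne_zero (mul_ne_zero two_ne_zero hpi) (pow_ne_zero _ hr0)
  have h1 := coeff_eq_of_hasSum (f := fun w => 2 * π * (coeff (fun z => U z w) k * ((1 / 2 : ℝ) : ℂ) ^ k))
    (r := 1 / 2) (by norm_num) (fun w hw => h.param (r := 1 / 2) (by norm_num) (by norm_num) k hw) l
  have e1 : coeff (fun w => 2 * π * (coeff (fun z => U z w) k * ((1 / 2 : ℝ) : ℂ) ^ k)) l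
      = (2 * π * ((1 / 2 : ℝ) : ℂ) ^ k) * coeff (fun w => coeff (fun z => U z w) k) l := by
    rw [← coeff_const_mul]
    congr 1
    funext w
    ring
  rw [e1] at h1
  have h2 := circle_coeff (f := fun z => coeff (fun w => U z w) l) (h.swap.coeff_diff l)
    (r := 1 / 2) (by norm_num) (by norm_num) k
  rw [h2] at h1
  have : (2 * π * ((1 / 2 : ℝ) : ℂ) ^ k) * coeff (fun w => coeff (fun z => U z w) k) l
      = (2 * π * ((1 / 2 : ℝ) : ℂ) ^ k) * coeff (fun z => coeff (fun w => U z w) l) k := by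
    rw [h1]; ring
  exact mul_left_cancel₀ hne this

/-- double Taylor coefficients -/
noncomputable def dcoeff (U : ℂ → ℂ → ℂ) (k l : ℕ) : ℂ :=
  coeff (fun z => coeff (fun w => U z w) l) k

theorem SepHol.dcoeff_bound {U : ℂ → ℂ → ℂ} (h : SepHol U) {r : ℝ} (hr : 0 < r) (hr1 : r < 1) :
    ∃ M : ℝ, 0 ≤ M ∧ ∀ k l : ℕ, ‖dcoeff U k l‖ * r ^ k * r ^ l ≤ M := by
  obtain ⟨M, hM0, hM⟩ := h.bound hr1
  refine ⟨M, hM0, fun k l => ?_⟩
  have h1 : ∀ z, ‖z‖ ≤ r → ‖coeff (fun w => U z w) l‖ ≤ M / r ^ l := by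
    intro z hz
    rw [le_div_iff₀ (by positivity)]
    exact coeff_bound (h.right z (mem_ball_zero_iff.mpr (hz.trans_lt hr1))) hr hr1
      (fun w hw => hM z w hz hw) l
  have h2 := coeff_bound (f := fun z => coeff (fun w => U z w) l) (h.swap.coeff_diff l) hr hr1 h1 k
  rw [le_div_iff₀ (by positivity)] at h2
  exact h2

theorem SepHol.hasSum_left {U : ℂ → ℂ → ℂ} (h : SepHol U) {z : ℂ} (hz : ‖z‖ < 1) (l : ℕ) :
    HasSum (fun k => dcoeff U k l * z ^ k) (coeff (fun w => U z w) l) :=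
  hasSum_coeff (f := fun z => coeff (fun w => U z w) l) (h.swap.coeff_diff l) hz

/-- the diagonal -/
theorem SepHol.hasSum_diag {U : ℂ → ℂ → ℂ} (h : SepHol U) (m : ℕ) :
    coeff (fun z => U z z) m = ∑ k ∈ Finset.range (m + 1), dcoeff U k (m - k) := by
  apply coeff_eq_of_hasSum (r := 1 / 4) (by norm_num)
    (a := fun m => ∑ k ∈ Finset.range (m + 1), dcoeff U k (m - k))
  intro z hz
  obtain ⟨M, hM0, hM⟩ := h.dcoeff_bound (r := 1 / 2) (by norm_num) (by norm_num)
  have hz1 : ‖z‖ < 1 := by linarith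
  have hb : ∀ k l : ℕ, ‖dcoeff U k l * z ^ k * z ^ l‖ ≤ M * ((2 * ‖z‖) ^ k * (2 * ‖z‖) ^ l) := by
    intro k l
    rw [norm_mul, norm_mul, norm_pow, norm_pow]
    have h1 := hM k l
    have h2 : ‖dcoeff U k l‖ ≤ M * (2 ^ k * 2 ^ l) := by
      have e : ‖dcoeff U k l‖ = (‖dcoeff U k l‖ * (1 / 2) ^ k * (1 / 2) ^ l) * (2 ^ k * 2 ^ l) := by
        rw [one_div, inv_pow, inv_pow]
        field_simp
      rw [e]
      exact mul_le_mul_of_nonneg_right h1 (by positivity)
    calc ‖dcoeff U k l‖ * ‖z‖ ^ k * ‖z‖ ^ l ≤ M * (2 ^ k * 2 ^ l) * ‖z‖ ^ k * ‖z‖ ^ l := by gcongr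
      _ = M * ((2 * ‖z‖) ^ k * (2 * ‖z‖) ^ l) := by rw [mul_pow, mul_pow]; ring
  have hg : Summable fun k : ℕ => (2 * ‖z‖) ^ k :=
    summable_geometric_of_lt_one (by positivity) (by linarith)
  have hs : Summable fun p : ℕ × ℕ => dcoeff U p.1 p.2 * z ^ p.1 * z ^ p.2 := by
    apply Summable.of_norm_bounded ((hg.mul_of_nonneg hg (fun _ => by positivity)
      (fun _ => by positivity)).mul_left M)
    intro p
    exact hb p.1 p.2
  have h1 : HasSum (fun p : ℕ × ℕ => dcoeff U p.1 p.2 * z ^ p.1 * z ^ p.2) (U z z) := by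
    have h2 := hs.hasSum
    have h3 : ∑' p : ℕ × ℕ, dcoeff U p.1 p.2 * z ^ p.1 * z ^ p.2 = U z z := by
      have e0 : ∑' p : ℕ × ℕ, dcoeff U p.1 p.2 * z ^ p.1 * z ^ p.2
          = ∑' p : ℕ × ℕ, dcoeff U p.2 p.1 * z ^ p.2 * z ^ p.1 :=
        ((Equiv.prodComm ℕ ℕ).tsum_eq
          (fun p : ℕ × ℕ => dcoeff U p.1 p.2 * z ^ p.1 * z ^ p.2)).symm
      have hs' : Summable fun p : ℕ × ℕ => dcoeff U p.2 p.1 * z ^ p.2 * z ^ p.1 :=
        (Equiv.prodComm ℕ ℕ).summable_iff.mpr hs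
      rw [e0, Summable.tsum_prod hs']
      have h4 : ∀ l : ℕ, ∑' k : ℕ, dcoeff U k l * z ^ k * z ^ l
          = coeff (fun w => U z w) l * z ^ l := by
        intro l
        rw [tsum_mul_right, (h.hasSum_left hz1 l).tsum_eq]
      simp_rw [h4]
      exact (hasSum_coeff (h.right z (mem_ball_zero_iff.mpr hz1)) hz1).tsum_eq
    rw [h3] at h2
    exact h2
  have h5 := hs.norm
  have h6 := (Finset.HasAntidiagonal.sigmaAntidiagonalEquivProd (A := ℕ)).hasSum_iff.mpr h1
  have h7 := h6.sigma (g := fun m => (∑ k ∈ Finset.range (m + 1), dcoeff U k (m - k)) * z ^ m) (by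
    intro m
    have h8 := hasSum_fintype (fun c : {x : ℕ × ℕ // x ∈ Finset.HasAntidiagonal.antidiagonal m} =>
      dcoeff U (c : ℕ × ℕ).1 (c : ℕ × ℕ).2 * z ^ (c : ℕ × ℕ).1 * z ^ (c : ℕ × ℕ).2)
    have h9 : ∑ c : {x : ℕ × ℕ // x ∈ Finset.HasAntidiagonal.antidiagonal m}, dcoeff U (c : ℕ × ℕ).1 (c : ℕ × ℕ).2
        * z ^ (c : ℕ × ℕ).1 * z ^ (c : ℕ × ℕ).2
        = (∑ k ∈ Finset.range (m + 1), dcoeff U k (m - k)) * z ^ m := by
      rw [Finset.sum_coe_sort (Finset.HasAntidiagonal.antidiagonal m)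
        (fun c : ℕ × ℕ => dcoeff U c.1 c.2 * z ^ c.1 * z ^ c.2)]
      rw [Finset.Nat.sum_antidiagonal_eq_sum_range_succ
        (fun k l => dcoeff U k l * z ^ k * z ^ l), Finset.sum_mul]
      apply Finset.sum_congr rfl
      intro k hk
      rw [Finset.mem_range] at hk
      rw [mul_assoc, ← pow_add]
      congr 2
      omega
    rw [h9] at h8
    exact h8)
  exact h7

end Pool.Agent.Helper22.Marshall
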