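import Mathlib
import Pool.Agent.Helper39.Area.Branch
import Pool.Agent.Helper22.Marshall.DoubleSeries

/-!
The logarithm of the two point function `(φ ζ - φ ω)/(ζ⁻¹ - ω⁻¹)`.
-/

set_option autoImplicit false

open MeasureTheory Set Metric Filter Topology
open scoped ENNReal NNReal Real Nat

namespace Pool.Agent.Helper22.Marshall

open Pool.Agent.Helper39.Area (Ext phi dphi qq_ne qq_diff dslope_cont eq_zero_of_exp_one)

theorem differentiableOn_of_exp {f : ℂ → ℂ} {s : Set ℂ} (hs : IsOpen s) (hf : ContinuousOn f s)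
    (he : DifferentiableOn ℂ (fun z => Complex.exp (f z)) s) : DifferentiableOn ℂ f s := by
  intro z hz
  apply DifferentiableAt.differentiableWithinAt
  have hfz : ContinuousAt f z := hf.continuousAt (hs.mem_nhds hz)
  have hez : DifferentiableAt ℂ (fun z => Complex.exp (f z)) z := he.differentiableAt (hs.mem_nhds hz)
  have h1 : DifferentiableAt ℂ (fun w => f z + Complex.log (Complex.exp (f w) * Complex.exp (-f z))) z := by
    apply DifferentiableAt.const_add
    apply DifferentiableAt.clog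
    · exact hez.mul_const _
    · rw [← Complex.exp_add, add_neg_cancel, Complex.exp_zero]
      exact Complex.one_mem_slitPlane
  apply h1.congr_of_eventuallyEq
  have h2 : ∀ᶠ w in 𝓝 z, ‖f w - f z‖ < 1 := by
    have h3 : ContinuousAt (fun w => ‖f w - f z‖) z := (hfz.sub continuousAt_const).norm
    have h4 : ‖f z - f z‖ < 1 := by simp
    exact h3.eventually_lt continuousAt_const h4
  filter_upwards [h2] with w hw
  rw [← Complex.exp_add, Complex.log_exp]
  · ring
  · have h5 := Complex.abs_im_le_norm (f w - f z)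
    have h6 := (abs_lt.mp (h5.trans_lt hw)).1
    have hpi := Real.pi_gt_three
    rw [← sub_eq_add_neg]
    linarith
  · have h5 := Complex.abs_im_le_norm (f w - f z)
    have h6 := (abs_lt.mp (h5.trans_lt hw)).2
    have hpi := Real.pi_gt_three
    rw [← sub_eq_add_neg]
    linarith

theorem qq_symm (β : ℂ → ℂ) (a b : ℂ) :
    Pool.Agent.Helper39.Area.qq β a b = Pool.Agent.Helper39.Area.qq β b a := by
  unfold Pool.Agent.Helper39.Area.qq
  by_cases h : a = b
  · subst h; rfl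
  · have e : dslope β a b = dslope β b a := by
      rw [dslope_of_ne _ (Ne.symm h), dslope_of_ne _ h, slope_comm]
    rw [e]; ring

/-- the data of the logarithm of the two point function -/
structure LogPhi (β H : ℂ → ℂ) (Φ : ℂ → ℂ → ℂ) : Prop where
  sep : SepHol Φ
  exp_eq : ∀ a ∈ ball (0 : ℂ) 1, ∀ b ∈ ball (0 : ℂ) 1,
    Complex.exp (Φ a b) = Pool.Agent.Helper39.Area.qq β a b
  zero_right : ∀ a ∈ ball (0 : ℂ) 1, Φ a 0 = 0
  symm : ∀ a ∈ ball (0 : ℂ) 1, ∀ b ∈ ball (0 : ℂ) 1, Φ a b = Φ b a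
  diag : ∀ a ∈ ball (0 : ℂ) 1, Φ a a = H a

theorem exists_logPhi {β : ℂ → ℂ} (h : Ext β) {H : ℂ → ℂ} (hH : ContinuousOn H (ball 0 1))
    (hH0 : H 0 = 0)
    (hexp : ∀ ζ ∈ ball (0 : ℂ) 1, Complex.exp (H ζ) = 1 - ζ ^ 2 * deriv β ζ) :
    ∃ Φ : ℂ → ℂ → ℂ, LogPhi β H Φ := by
  set U : Set (ℂ × ℂ) := ball 0 1 ×ˢ ball 0 1 with hU
  have hUo : IsOpen U := isOpen_ball.prod isOpen_ball
  have hUconv : Convex ℝ U := (convex_ball _ _).prod (convex_ball _ _)
  have h00 : ((0:ℂ), (0:ℂ)) ∈ U := ⟨mem_ball_self one_pos, mem_ball_self one_pos⟩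
  have h0b : (0:ℂ) ∈ ball (0:ℂ) 1 := mem_ball_self one_pos
  have hUs : IsSimplyConnected U := by
    have hc : ContractibleSpace U := hUconv.contractibleSpace ⟨_, h00⟩
    show SimplyConnectedSpace U
    infer_instance
  have hqc : ContinuousOn (fun p : ℂ × ℂ => Pool.Agent.Helper39.Area.qq β p.1 p.2) U := by
    unfold Pool.Agent.Helper39.Area.qq
    apply ContinuousOn.sub continuousOn_const
    apply ContinuousOn.mul (by fun_prop)
    exact dslope_cont h.diff
  have hq0 : 0 ∉ (fun p : ℂ × ℂ => Pool.Agent.Helper39.Area.qq β p.1 p.2) '' U := by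
    rintro ⟨p, ⟨hp1, hp2⟩, hp⟩
    exact qq_ne h hp1 hp2 hp
  obtain ⟨Φ, hΦc, hΦ⟩ := Complex.exists_continuousOn_eqOn_exp_comp hUs hUo hqc hq0
  have hΦe : ∀ b ∈ ball (0:ℂ) 1, ∀ ζ ∈ ball (0:ℂ) 1,
      Complex.exp (Φ (b, ζ)) = Pool.Agent.Helper39.Area.qq β b ζ :=
    fun b hb ζ hζ => hΦ (show (b, ζ) ∈ U from ⟨hb, hζ⟩)
  have hq00 : ∀ a : ℂ, Pool.Agent.Helper39.Area.qq β a 0 = 1 := by
    intro a; simp [Pool.Agent.Helper39.Area.qq]
  have hΨe : ∀ a ∈ ball (0:ℂ) 1, ∀ b ∈ ball (0:ℂ) 1,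
      Complex.exp (Φ (a, b) - Φ (0, 0)) = Pool.Agent.Helper39.Area.qq β a b := by
    intro a ha b hb
    rw [Complex.exp_sub, hΦe a ha b hb, hΦe 0 h0b 0 h0b, hq00, div_one]
  have hΨc : ContinuousOn (fun p : ℂ × ℂ => Φ (p.1, p.2) - Φ (0, 0)) U := by
    have : ContinuousOn (fun p : ℂ × ℂ => Φ (p.1, p.2)) U := hΦc
    exact this.sub continuousOn_const
  have hright : ∀ a ∈ ball (0:ℂ) 1,
      DifferentiableOn ℂ (fun b => Φ (a, b) - Φ (0, 0)) (ball 0 1) := by
    intro a ha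
    apply differentiableOn_of_exp isOpen_ball
    · exact hΨc.comp (f := fun b => (a, b)) (by fun_prop) (fun b hb => ⟨ha, hb⟩)
    · apply (qq_diff h.diff ha).congr
      intro b hb
      exact hΨe a ha b hb
  have hleft : ∀ b ∈ ball (0:ℂ) 1,
      DifferentiableOn ℂ (fun a => Φ (a, b) - Φ (0, 0)) (ball 0 1) := by
    intro b hb
    apply differentiableOn_of_exp isOpen_ball
    · exact hΨc.comp (f := fun a => (a, b)) (by fun_prop) (fun a ha => ⟨ha, hb⟩)
    · apply (qq_diff h.diff hb).congr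
      intro a ha
      rw [hΨe a ha b hb, qq_symm]
  refine ⟨fun a b => Φ (a, b) - Φ (0, 0), ⟨hΨc, hleft, hright⟩, hΨe, ?_, ?_, ?_⟩
  · apply eq_zero_of_exp_one (convex_ball (0:ℂ) 1).isPreconnected _ _ h0b (by simp)
    · exact hΨc.comp (f := fun a => (a, 0)) (by fun_prop) (fun a ha => ⟨ha, h0b⟩)
    · intro a ha
      rw [hΨe a ha 0 h0b, hq00]
  · have h1 : ∀ p ∈ U, (Φ (p.1, p.2) - Φ (0, 0)) - (Φ (p.2, p.1) - Φ (0, 0)) = 0 := by
      apply eq_zero_of_exp_one hUconv.isPreconnected _ _ h00 (by simp)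
      · apply hΨc.sub
        exact hΨc.comp (f := fun p : ℂ × ℂ => (p.2, p.1)) (by fun_prop) (fun p hp => ⟨hp.2, hp.1⟩)
      · rintro ⟨a, b⟩ ⟨ha, hb⟩
        simp only at ha hb ⊢
        rw [Complex.exp_sub, hΨe a ha b hb, hΨe b hb a ha, qq_symm β a b, div_self]
        exact qq_ne h hb ha
    intro a ha b hb
    have := h1 (a, b) ⟨ha, hb⟩
    simp only at this
    exact sub_eq_zero.mp this
  · have h1 : ∀ a ∈ ball (0:ℂ) 1, (Φ (a, a) - Φ (0, 0)) - H a = 0 := by
      apply eq_zero_of_exp_one (convex_ball (0:ℂ) 1).isPreconnected _ _ h0b (by simp [hH0])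
      · apply ContinuousOn.sub _ hH
        exact hΨc.comp (f := fun a => (a, a)) (by fun_prop) (fun a ha => ⟨ha, ha⟩)
      · intro a ha
        rw [Complex.exp_sub, hΨe a ha a ha, hexp a ha]
        have e : Pool.Agent.Helper39.Area.qq β a a = 1 - a ^ 2 * deriv β a := by
          unfold Pool.Agent.Helper39.Area.qq
          rw [dslope_same]; ring
        rw [e, div_self (h.ne a ha)]
    intro a ha
    exact sub_eq_zero.mp (h1 a ha)

end Pool.Agent.Helper22.Marshall
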