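import Mathlib
import Pool.Agent.Helper39.Area.Ineq
import Pool.Agent.Helper22.Marshall.CoeffMul

/-!
The area inequality for polynomials in terms of Taylor coefficients.
-/

set_option autoImplicit false

open MeasureTheory Set Metric Filter Topology
open scoped ENNReal NNReal Real Nat ComplexConjugate

namespace Pool.Agent.Helper22.Marshall

open Pool.Agent.Helper39.Area (Ext phi dphi area_ineq hasDerivAt_phi)

/-- the (generalised) area inequality with constant `k`, in the coordinate `ζ = 1/z` -/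
def GLe (β : ℂ → ℂ) (k : ℝ) : Prop :=
  ∀ (i : ℕ) (P : Polynomial ℂ) (v : ℕ → ℂ), P.natDegree ≤ i →
    (∀ ζ : ℂ, ζ ≠ 0 → ‖ζ‖ < 1 → HasSum (fun m => v m * ζ ^ m) (ζ ^ i * P.eval (phi β ζ))) →
    ∀ M : ℕ, ∑ m ∈ Finset.range M, ((m - i : ℕ) : ℝ) * ‖v m‖ ^ 2
      ≤ k ^ 2 * ∑ m ∈ Finset.range i, ((i - m : ℕ) : ℝ) * ‖v m‖ ^ 2

/-- power series with given values on the punctured disc -/
theorem exists_g {v : ℕ → ℂ} {f : ℂ → ℂ}
    (h : ∀ ζ : ℂ, ζ ≠ 0 → ‖ζ‖ < 1 → HasSum (fun m => v m * ζ ^ m) (f ζ)) :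
    ∃ g : ℂ → ℂ, DifferentiableOn ℂ g (ball 0 1) ∧ (∀ m, coeff g m = v m) ∧
      ∀ ζ : ℂ, ζ ≠ 0 → ‖ζ‖ < 1 → g ζ = f ζ := by
  have hs : ∀ ζ : ℂ, ‖ζ‖ < 1 → Summable (fun m => v m * ζ ^ m) := by
    intro ζ hζ
    by_cases h0 : ζ = 0
    · subst h0
      apply summable_of_ne_finset_zero (s := {0})
      intro m hm
      rw [Finset.mem_singleton] at hm
      rw [zero_pow hm, mul_zero]
    · exact (h ζ h0 hζ).summable
  refine ⟨fun ζ => ∑' m, v m * ζ ^ m, ?_, ?_, ?_⟩
  · intro w hw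
    rw [mem_ball_zero_iff] at hw
    obtain ⟨r, hr1, hr2⟩ := exists_between hw
    have hr : 0 < r := (norm_nonneg w).trans_lt hr1
    have hsum : Summable fun m => ‖v m‖ * r ^ m := by
      have := (hs (r : ℂ) (by rw [Complex.norm_real, Real.norm_of_nonneg hr.le]; exact hr2)).norm
      simpa [norm_mul, norm_pow, Complex.norm_real, abs_of_pos hr] using this
    have hd := Complex.differentiableOn_tsum_of_summable_norm (F := fun m z => v m * z ^ m) hsum
      (U := ball (0 : ℂ) r) (fun l => by fun_prop) isOpen_ball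
      (fun l z hz => by
        rw [mem_ball_zero_iff] at hz
        rw [norm_mul, norm_pow]
        gcongr)
    exact (hd.differentiableAt (isOpen_ball.mem_nhds (mem_ball_zero_iff.mpr hr1))).differentiableWithinAt
  · intro m
    exact coeff_eq_of_hasSum one_pos (fun z hz => (hs z hz).hasSum) m
  · intro ζ h0 hζ
    exact (h ζ h0 hζ).tsum_eq

theorem real_part_id (g q : ℂ) : (conj g * q).re = (‖g + q‖ ^ 2 - ‖g - q‖ ^ 2) / 4 := by
  rw [← Complex.normSq_eq_norm_sq, ← Complex.normSq_eq_norm_sq]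
  simp only [Complex.normSq_apply, Complex.mul_re, Complex.conj_re, Complex.conj_im,
    Complex.add_re, Complex.add_im, Complex.sub_re, Complex.sub_im]
  ring

/-- Parseval for `conj g (ζ g' - i g)` -/
theorem parseval_J {g : ℂ → ℂ} (hg : DifferentiableOn ℂ g (ball 0 1)) (i : ℕ) {r : ℝ}
    (hr : 0 ≤ r) (hr1 : r < 1) :
    HasSum (fun n : ℕ => ((n : ℝ) - i) * ‖coeff g n‖ ^ 2 * r ^ (2 * n))
      ((1 / (2 * π)) * ∫ θ in (-π)..π,
        (conj (g ((r : ℂ) * Complex.exp ((θ : ℂ) * Complex.I))) *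
          (((r : ℂ) * Complex.exp ((θ : ℂ) * Complex.I)) *
            deriv g ((r : ℂ) * Complex.exp ((θ : ℂ) * Complex.I))
            - i * g ((r : ℂ) * Complex.exp ((θ : ℂ) * Complex.I)))).re) := by
  have h1 := parseval_comb hg 1 (1 - i) hr hr1
  have h2 := parseval_comb hg (-1) (1 + i) hr hr1
  have h3 := (h1.sub h2).mul_left (1 / 4)
  have e1 : (fun n : ℕ => 1 / 4 * (‖(1 * (n : ℂ) + (1 - i)) * coeff g n‖ ^ 2 * r ^ (2 * n)
      - ‖((-1) * (n : ℂ) + (1 + i)) * coeff g n‖ ^ 2 * r ^ (2 * n)))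
      = fun n : ℕ => ((n : ℝ) - i) * ‖coeff g n‖ ^ 2 * r ^ (2 * n) := by
    funext n
    have e3 : (1 * (n : ℂ) + (1 - i)) = (((n : ℝ) + (1 - i) : ℝ) : ℂ) := by push_cast; ring
    have e4 : ((-1) * (n : ℂ) + (1 + i)) = (((-1) * (n : ℝ) + (1 + i) : ℝ) : ℂ) := by push_cast; ring
    rw [e3, e4, norm_mul, norm_mul, Complex.norm_real, Complex.norm_real, mul_pow, mul_pow,
      Real.norm_eq_abs, Real.norm_eq_abs, sq_abs, sq_abs]
    ring
  have hc : ∀ α β : ℂ, Continuous (fun θ : ℝ => ‖α * (((r : ℂ) * Complex.exp ((θ : ℂ) * Complex.I)) *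
          deriv g ((r : ℂ) * Complex.exp ((θ : ℂ) * Complex.I)))
          + β * g ((r : ℂ) * Complex.exp ((θ : ℂ) * Complex.I))‖ ^ 2) := by
    intro α β
    have hcirc : Continuous (fun θ : ℝ => (r : ℂ) * Complex.exp ((θ : ℂ) * Complex.I)) := by fun_prop
    have hmem : ∀ θ : ℝ, (r : ℂ) * Complex.exp ((θ : ℂ) * Complex.I) ∈ ball (0 : ℂ) 1 := by
      intro θ
      rw [mem_ball_zero_iff, norm_mul, Complex.norm_exp_ofReal_mul_I, mul_one, Complex.norm_real,
        Real.norm_of_nonneg hr]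
      exact hr1
    have c1 : Continuous (fun θ : ℝ => g ((r : ℂ) * Complex.exp ((θ : ℂ) * Complex.I))) :=
      hg.continuousOn.comp_continuous hcirc hmem
    have c2 : Continuous (fun θ : ℝ => deriv g ((r : ℂ) * Complex.exp ((θ : ℂ) * Complex.I))) :=
      (hg.deriv isOpen_ball).continuousOn.comp_continuous hcirc hmem
    exact ((continuous_const.mul (hcirc.mul c2)).add (continuous_const.mul c1)).norm.pow 2
  have e2 : 1 / 4 * (1 / (2 * π) * (∫ θ in (-π)..π,
        ‖1 * (((r : ℂ) * Complex.exp ((θ : ℂ) * Complex.I)) *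
          deriv g ((r : ℂ) * Complex.exp ((θ : ℂ) * Complex.I)))
          + (1 - i) * g ((r : ℂ) * Complex.exp ((θ : ℂ) * Complex.I))‖ ^ 2)
      - 1 / (2 * π) * ∫ θ in (-π)..π,
        ‖(-1) * (((r : ℂ) * Complex.exp ((θ : ℂ) * Complex.I)) *
          deriv g ((r : ℂ) * Complex.exp ((θ : ℂ) * Complex.I)))
          + (1 + i) * g ((r : ℂ) * Complex.exp ((θ : ℂ) * Complex.I))‖ ^ 2)
      = (1 / (2 * π)) * ∫ θ in (-π)..π,
        (conj (g ((r : ℂ) * Complex.exp ((θ : ℂ) * Complex.I))) *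
          (((r : ℂ) * Complex.exp ((θ : ℂ) * Complex.I)) *
            deriv g ((r : ℂ) * Complex.exp ((θ : ℂ) * Complex.I))
            - i * g ((r : ℂ) * Complex.exp ((θ : ℂ) * Complex.I)))).re := by
    rw [← mul_sub, ← intervalIntegral.integral_sub ((hc 1 (1 - i)).intervalIntegrable _ _)
      ((hc (-1) (1 + i)).intervalIntegrable _ _), mul_left_comm,
      ← intervalIntegral.integral_const_mul]
    congr 2
    funext θ
    rw [real_part_id]
    generalize g ((r : ℂ) * Complex.exp ((θ : ℂ) * Complex.I)) = G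
    generalize ((r : ℂ) * Complex.exp ((θ : ℂ) * Complex.I)) *
          deriv g ((r : ℂ) * Complex.exp ((θ : ℂ) * Complex.I)) = Q
    have e5 : 1 * Q + (1 - (i : ℂ)) * G = G + (Q - i * G) := by ring
    have e6 : (-1) * Q + (1 + (i : ℂ)) * G = G - (Q - i * G) := by ring
    rw [e5, e6]
    ring
  rw [e1, e2] at h3
  exact h3


/-- the area inequality holds with constant one -/
theorem gLe_one {β : ℂ → ℂ} (h : Ext β) : GLe β 1 := by
  intro i P v hP hv M
  obtain ⟨g, hg, hgv, hgf⟩ := exists_g hv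
  -- the inequality for each radius
  have key : ∀ r : ℝ, 0 < r → r < 1 → ∑' n : ℕ, ((n : ℝ) - i) * ‖v n‖ ^ 2 * r ^ (2 * n) ≤ 0 ∧
      Summable (fun n : ℕ => ((n : ℝ) - i) * ‖v n‖ ^ 2 * r ^ (2 * n)) := by
    intro r hr hr1
    have h1 := parseval_J hg i hr.le hr1
    simp_rw [hgv] at h1
    refine ⟨?_, h1.summable⟩
    rw [h1.tsum_eq]
    obtain ⟨c, hc, hc2⟩ := area_ineq h hr hr1 P
    have h2 : (∮ ζ in C(0, r), conj (P.eval (phi β ζ)) *
        ((Polynomial.derivative P).eval (phi β ζ) * dphi β ζ))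
        = (Complex.I * ((r : ℂ) ^ (2 * i))⁻¹) * ∫ θ in (0:ℝ)..(2 * π),
          (conj (g ((r : ℂ) * Complex.exp ((θ : ℂ) * Complex.I))) *
          (((r : ℂ) * Complex.exp ((θ : ℂ) * Complex.I)) *
            deriv g ((r : ℂ) * Complex.exp ((θ : ℂ) * Complex.I))
            - i * g ((r : ℂ) * Complex.exp ((θ : ℂ) * Complex.I)))) := by
      rw [circleIntegral, ← intervalIntegral.integral_const_mul]
      congr 1
      funext θ
      have e0 : circleMap 0 r θ = (r : ℂ) * Complex.exp ((θ : ℂ) * Complex.I) := by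
        rw [circleMap, zero_add]
      rw [deriv_circleMap, e0]
      set ζ : ℂ := (r : ℂ) * Complex.exp ((θ : ℂ) * Complex.I) with hζ
      have hζn : ‖ζ‖ = r := by
        rw [hζ, norm_mul, Complex.norm_exp_ofReal_mul_I, mul_one, Complex.norm_real,
          Real.norm_of_nonneg hr.le]
      have hζ0 : ζ ≠ 0 := by
        rw [← norm_pos_iff, hζn]; exact hr
      have hζb : ζ ∈ ball (0 : ℂ) 1 := by rw [mem_ball_zero_iff, hζn]; exact hr1
      have hgd : HasDerivAt g (deriv g ζ) ζ :=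
        (hg.differentiableAt (isOpen_ball.mem_nhds hζb)).hasDerivAt
      have hPd : HasDerivAt (fun ζ => ζ ^ i * P.eval (phi β ζ))
          (i * ζ ^ (i - 1) * P.eval (phi β ζ) + ζ ^ i * ((Polynomial.derivative P).eval (phi β ζ)
            * dphi β ζ)) ζ := by
        have d1 := hasDerivAt_pow i ζ
        have d2 := (Polynomial.hasDerivAt P (phi β ζ)).comp ζ (hasDerivAt_phi h.diff hζb hζ0)
        exact d1.mul d2
      have hgP : g =ᶠ[𝓝 ζ] fun ζ => ζ ^ i * P.eval (phi β ζ) := by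
        have hmem : ball (0 : ℂ) 1 \ {0} ∈ 𝓝 ζ := by
          apply IsOpen.mem_nhds (isOpen_ball.sdiff isClosed_singleton)
          exact ⟨hζb, hζ0⟩
        filter_upwards [hmem] with w hw
        exact hgf w hw.2 (mem_ball_zero_iff.mp hw.1)
      have e1 : deriv g ζ = i * ζ ^ (i - 1) * P.eval (phi β ζ)
          + ζ ^ i * ((Polynomial.derivative P).eval (phi β ζ) * dphi β ζ) := by
        rw [hgP.deriv_eq, hPd.deriv]
      have e2 : g ζ = ζ ^ i * P.eval (phi β ζ) := hgf ζ hζ0 (by rw [hζn]; exact hr1)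
      have e3 : ζ * deriv g ζ - i * g ζ
          = ζ ^ i * (ζ * ((Polynomial.derivative P).eval (phi β ζ) * dphi β ζ)) := by
        rw [e1, e2]
        cases i with
        | zero => simp
        | succ i =>
          simp only [Nat.add_sub_cancel]
          ring
      rw [e3, e2]
      have e4 : conj ζ * ζ = (r : ℂ) ^ 2 := by
        rw [← hζn, Complex.conj_mul']
      have e5 : conj (ζ ^ i) * ζ ^ i = (r : ℂ) ^ (2 * i) := by
        rw [map_pow, ← mul_pow, e4, ← pow_mul]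
      have hr0 : (r : ℂ) ^ (2 * i) ≠ 0 := pow_ne_zero _ (by exact_mod_cast hr.ne')
      rw [map_mul, smul_eq_mul]
      calc ζ * Complex.I * (conj (Polynomial.eval (phi β ζ) P) *
          (Polynomial.eval (phi β ζ) (Polynomial.derivative P) * dphi β ζ))
          = (Complex.I * ((r : ℂ) ^ (2 * i))⁻¹) * ((r : ℂ) ^ (2 * i) *
            (conj (Polynomial.eval (phi β ζ) P) *
            (ζ * (Polynomial.eval (phi β ζ) (Polynomial.derivative P) * dphi β ζ)))) := by
            field_simp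
        _ = _ := by rw [← e5]; ring
    rw [h2] at hc2
    have hr0 : (r : ℂ) ^ (2 * i) ≠ 0 := pow_ne_zero _ (by exact_mod_cast hr.ne')
    have h3 : (∫ θ in (0:ℝ)..(2 * π),
          (conj (g ((r : ℂ) * Complex.exp ((θ : ℂ) * Complex.I))) *
          (((r : ℂ) * Complex.exp ((θ : ℂ) * Complex.I)) *
            deriv g ((r : ℂ) * Complex.exp ((θ : ℂ) * Complex.I))
            - i * g ((r : ℂ) * Complex.exp ((θ : ℂ) * Complex.I))))) = ((-2 * c * r ^ (2 * i) : ℝ) : ℂ) := by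
      have h4 : Complex.I * ((r : ℂ) ^ (2 * i))⁻¹ ≠ 0 := mul_ne_zero Complex.I_ne_zero (inv_ne_zero hr0)
      apply mul_left_cancel₀ h4
      rw [hc2]
      push_cast
      field_simp
    -- shift of the interval
    set Fn : ℝ → ℂ := fun θ => (conj (g ((r : ℂ) * Complex.exp ((θ : ℂ) * Complex.I))) *
          (((r : ℂ) * Complex.exp ((θ : ℂ) * Complex.I)) *
            deriv g ((r : ℂ) * Complex.exp ((θ : ℂ) * Complex.I))
            - i * g ((r : ℂ) * Complex.exp ((θ : ℂ) * Complex.I)))) with hFn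
    have hper : Function.Periodic Fn (2 * π) := by
      intro θ
      have e : Complex.exp (((θ + 2 * π : ℝ) : ℂ) * Complex.I) = Complex.exp ((θ : ℂ) * Complex.I) := by
        push_cast
        rw [add_mul, Complex.exp_add, Complex.exp_two_pi_mul_I, mul_one]
      simp only [hFn, e]
    have h5 := hper.intervalIntegral_add_eq (-π) 0
    rw [show -π + 2 * π = π by ring, zero_add] at h5
    have hFc : Continuous Fn := by
      have hcirc : Continuous (fun θ : ℝ => (r : ℂ) * Complex.exp ((θ : ℂ) * Complex.I)) := by fun_prop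
      have hmem : ∀ θ : ℝ, (r : ℂ) * Complex.exp ((θ : ℂ) * Complex.I) ∈ ball (0 : ℂ) 1 := by
        intro θ
        rw [mem_ball_zero_iff, norm_mul, Complex.norm_exp_ofReal_mul_I, mul_one, Complex.norm_real,
          Real.norm_of_nonneg hr.le]
        exact hr1
      have c1 : Continuous (fun θ : ℝ => g ((r : ℂ) * Complex.exp ((θ : ℂ) * Complex.I))) :=
        hg.continuousOn.comp_continuous hcirc hmem
      have c2 : Continuous (fun θ : ℝ => deriv g ((r : ℂ) * Complex.exp ((θ : ℂ) * Complex.I))) :=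
        (hg.deriv isOpen_ball).continuousOn.comp_continuous hcirc hmem
      exact (Complex.continuous_conj.comp c1).mul ((hcirc.mul c2).sub (continuous_const.mul c1))
    have h6 : ∫ θ in (-π)..π, (Fn θ).re = (∫ θ in (-π)..π, Fn θ).re := by
      have := Complex.reCLM.intervalIntegral_comp_comm (hFc.intervalIntegrable (μ := volume) (-π) π)
      exact this
    rw [h6, h5, h3, Complex.ofReal_re]
    have hpi := Real.pi_pos
    have : 0 ≤ r ^ (2 * i) := by positivity
    have h7 : 0 ≤ 1 / (2 * π) * (2 * c * r ^ (2 * i)) := by positivity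
    linarith
  -- partial sums
  have key2 : ∀ r : ℝ, 0 < r → r < 1 → (∑ m ∈ Finset.range M, ((m - i : ℕ) : ℝ) * ‖v m‖ ^ 2 * r ^ (2 * m))
      ≤ ∑ m ∈ Finset.range i, ((i - m : ℕ) : ℝ) * ‖v m‖ ^ 2 := by
    intro r hr hr1
    obtain ⟨h1, h2⟩ := key r hr hr1
    have h3 : (∑ n ∈ Finset.range i, ((n : ℝ) - i) * ‖v n‖ ^ 2 * r ^ (2 * n))
        + ∑' n : ℕ, (((n + i : ℕ) : ℝ) - i) * ‖v (n + i)‖ ^ 2 * r ^ (2 * (n + i)) ≤ 0 := by
      rw [h2.sum_add_tsum_nat_add i]
      exact h1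
    have h4 : (∑ m ∈ Finset.range M, ((m - i : ℕ) : ℝ) * ‖v m‖ ^ 2 * r ^ (2 * m))
        ≤ ∑ m ∈ Finset.range (i + M), ((m - i : ℕ) : ℝ) * ‖v m‖ ^ 2 * r ^ (2 * m) := by
      apply Finset.sum_le_sum_of_subset_of_nonneg
      · intro m hm
        rw [Finset.mem_range] at hm ⊢
        omega
      · intro m _ _
        positivity
    have h5 : ∑ m ∈ Finset.range (i + M), ((m - i : ℕ) : ℝ) * ‖v m‖ ^ 2 * r ^ (2 * m)
        = ∑ m ∈ Finset.range M, (((m + i : ℕ) : ℝ) - i) * ‖v (m + i)‖ ^ 2 * r ^ (2 * (m + i)) := by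
      rw [Finset.sum_range_add]
      have : ∑ x ∈ Finset.range i, ((x - i : ℕ) : ℝ) * ‖v x‖ ^ 2 * r ^ (2 * x) = 0 := by
        apply Finset.sum_eq_zero
        intro x hx
        rw [Finset.mem_range] at hx
        have : x - i = 0 := by omega
        rw [this]
        simp
      rw [this, zero_add]
      apply Finset.sum_congr rfl
      intro x _
      have e : i + x - i = x := by omega
      rw [e, add_comm i x]
      push_cast
      ring
    have h6 : ∑ m ∈ Finset.range M, (((m + i : ℕ) : ℝ) - i) * ‖v (m + i)‖ ^ 2 * r ^ (2 * (m + i))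
        ≤ ∑' n : ℕ, (((n + i : ℕ) : ℝ) - i) * ‖v (n + i)‖ ^ 2 * r ^ (2 * (n + i)) := by
      apply Summable.sum_le_tsum
      · intro n _
        push_cast
        have : (n : ℝ) + i - i = n := by ring
        rw [this]
        positivity
      · exact (summable_nat_add_iff i).mpr h2
    have h7 : ∑ m ∈ Finset.range i, ((i - m : ℕ) : ℝ) * ‖v m‖ ^ 2 * r ^ (2 * m)
        ≤ ∑ m ∈ Finset.range i, ((i - m : ℕ) : ℝ) * ‖v m‖ ^ 2 := by
      apply Finset.sum_le_sum
      intro m _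
      have : r ^ (2 * m) ≤ 1 := pow_le_one₀ hr.le hr1.le
      have h0 : 0 ≤ ((i - m : ℕ) : ℝ) * ‖v m‖ ^ 2 := by positivity
      nlinarith
    have h8 : ∑ m ∈ Finset.range i, ((i - m : ℕ) : ℝ) * ‖v m‖ ^ 2 * r ^ (2 * m)
        = - ∑ n ∈ Finset.range i, ((n : ℝ) - i) * ‖v n‖ ^ 2 * r ^ (2 * n) := by
      rw [← Finset.sum_neg_distrib]
      apply Finset.sum_congr rfl
      intro m hm
      rw [Finset.mem_range] at hm
      rw [Nat.cast_sub hm.le]
      ring
    linarith
  rw [one_pow, one_mul]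
  -- limit r → 1
  have hcont : Continuous (fun r : ℝ => ∑ m ∈ Finset.range M, ((m - i : ℕ) : ℝ) * ‖v m‖ ^ 2 * r ^ (2 * m)) := by
    fun_prop
  have hlim : Tendsto (fun r : ℝ => ∑ m ∈ Finset.range M, ((m - i : ℕ) : ℝ) * ‖v m‖ ^ 2 * r ^ (2 * m))
      (𝓝[<] 1) (𝓝 (∑ m ∈ Finset.range M, ((m - i : ℕ) : ℝ) * ‖v m‖ ^ 2 * 1 ^ (2 * m))) :=
    (hcont.tendsto 1).mono_left nhdsWithin_le_nhds
  simp only [one_pow, mul_one] at hlim
  apply le_of_tendsto hlim
  have hmem : Ioo (0 : ℝ) 1 ∈ 𝓝[<] (1 : ℝ) := Ioo_mem_nhdsLT one_pos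
  filter_upwards [hmem] with r hr
  exact key2 r hr.1 hr.2

end Pool.Agent.Helper22.Marshall
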