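import Mathlib

/-!
The Gaussian averaging step.
-/

set_option autoImplicit false

open MeasureTheory Set Metric Filter Topology
open scoped ENNReal NNReal Real

namespace Pool.Agent.Helper22.Marshall

theorem integral_gauss {κ : ℝ} (hκ : 0 < κ) (v0 : ℂ) :
    ∫ v : ℂ, Real.exp (-κ * ‖v - v0‖ ^ 2) = π / κ := by
  rw [integral_sub_right_eq_self (fun v : ℂ => Real.exp (-κ * ‖v‖ ^ 2)) v0]
  have h := GaussianFourier.integral_rexp_neg_mul_sq_norm (V := ℂ) hκ
  rw [h, Complex.finrank_real_complex]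
  norm_num

theorem integrable_gauss {κ : ℝ} (hκ : 0 < κ) (v0 : ℂ) :
    Integrable (fun v : ℂ => Real.exp (-κ * ‖v - v0‖ ^ 2)) := by
  by_contra hn
  have h := integral_undef hn
  rw [integral_gauss hκ v0] at h
  have : 0 < π / κ := by positivity
  linarith

theorem lint_gauss {κ : ℝ} (hκ : 0 < κ) (v0 : ℂ) :
    ∫⁻ v : ℂ, ENNReal.ofReal (Real.exp (-κ * ‖v - v0‖ ^ 2)) = ENNReal.ofReal (π / κ) := by
  rw [← ofReal_integral_eq_lintegral_ofReal (integrable_gauss hκ v0)
    (Eventually.of_forall fun v => (Real.exp_pos _).le), integral_gauss hκ v0]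

theorem complete_square {κ : ℝ} (hκ : 0 < κ) (v w : ℂ) :
    -κ * ‖v‖ ^ 2 + inner ℝ v w
      = -κ * ‖v - ((1 / (2 * κ) : ℝ) : ℂ) * w‖ ^ 2 + ‖w‖ ^ 2 / (4 * κ) := by
  have h1 : ((1 / (2 * κ) : ℝ) : ℂ) * w = (1 / (2 * κ) : ℝ) • w := by
    rw [Complex.real_smul]
  rw [h1, norm_sub_sq_real, real_inner_smul_right, norm_smul, Real.norm_of_nonneg (by positivity)]
  field_simp
  ring

/-- pointwise truncated Gaussian representation -/
theorem gauss_trunc {a L k δ : ℝ} (ha : 0 < a) (hL : 0 < L) (hδ : 0 < δ)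
    (hbig : Real.log 4 ≤ L / (4 * a) * δ ^ 2 / 2) (w : ℂ) (hw : ‖w‖ ≤ k * L) :
    ENNReal.ofReal (Real.exp (a * ‖w‖ ^ 2 / L))
      ≤ ENNReal.ofReal (2 * (L / (4 * a) / π)) * ∫⁻ v in closedBall (0 : ℂ) (2 * a * k + δ),
        ENNReal.ofReal (Real.exp (-(L / (4 * a)) * ‖v‖ ^ 2 + inner ℝ v w)) := by
  obtain ⟨κ, hκdef⟩ : ∃ κ, κ = L / (4 * a) := ⟨_, rfl⟩
  have hκ : 0 < κ := by rw [hκdef]; positivity
  rw [← hκdef] at hbig ⊢
  obtain ⟨v0, hv0⟩ : ∃ v0 : ℂ, v0 = ((1 / (2 * κ) : ℝ) : ℂ) * w := ⟨_, rfl⟩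
  obtain ⟨A, hA⟩ : ∃ A : ℝ, A = Real.exp (a * ‖w‖ ^ 2 / L) := ⟨_, rfl⟩
  have hApos : 0 < A := by rw [hA]; exact Real.exp_pos _
  have hexp : ∀ v : ℂ, Real.exp (-κ * ‖v‖ ^ 2 + inner ℝ v w)
      = A * Real.exp (-κ * ‖v - v0‖ ^ 2) := by
    intro v
    rw [complete_square hκ, ← hv0, hA, ← Real.exp_add]
    congr 1
    have : ‖w‖ ^ 2 / (4 * κ) = a * ‖w‖ ^ 2 / L := by
      rw [hκdef]
      field_simp
    rw [this]; ring
  have hv0n : ‖v0‖ ≤ 2 * a * k := by
    rw [hv0, norm_mul, Complex.norm_real, Real.norm_of_nonneg (by positivity), hκdef]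
    have : 1 / (2 * (L / (4 * a))) = 2 * a / L := by field_simp; norm_num
    rw [this, div_mul_eq_mul_div, div_le_iff₀ hL]
    calc 2 * a * ‖w‖ ≤ 2 * a * (k * L) := mul_le_mul_of_nonneg_left hw (by positivity)
      _ = 2 * a * k * L := by ring
  -- tail estimate
  have htail : ∫⁻ v in (closedBall (0 : ℂ) (2 * a * k + δ))ᶜ,
      ENNReal.ofReal (Real.exp (-κ * ‖v - v0‖ ^ 2)) ≤ ENNReal.ofReal (π / κ / 2) := by
    have h1 : ∀ v ∈ (closedBall (0 : ℂ) (2 * a * k + δ))ᶜ,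
        ENNReal.ofReal (Real.exp (-κ * ‖v - v0‖ ^ 2))
          ≤ ENNReal.ofReal (1 / 4) * ENNReal.ofReal (Real.exp (-(κ / 2) * ‖v - v0‖ ^ 2)) := by
      intro v hv
      rw [mem_compl_iff, mem_closedBall_zero_iff, not_le] at hv
      have h2 : δ ≤ ‖v - v0‖ := by
        have := norm_sub_norm_le v v0
        linarith
      rw [← ENNReal.ofReal_mul (by norm_num)]
      apply ENNReal.ofReal_le_ofReal
      have h3 : δ ^ 2 ≤ ‖v - v0‖ ^ 2 := pow_le_pow_left₀ hδ.le h2 2
      have h4 : -κ * ‖v - v0‖ ^ 2 ≤ -Real.log 4 + -(κ / 2) * ‖v - v0‖ ^ 2 := by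
        have h5 : κ / 2 * δ ^ 2 ≤ κ / 2 * ‖v - v0‖ ^ 2 :=
          mul_le_mul_of_nonneg_left h3 (by positivity)
        linarith
      calc Real.exp (-κ * ‖v - v0‖ ^ 2) ≤ Real.exp (-Real.log 4 + -(κ / 2) * ‖v - v0‖ ^ 2) :=
            Real.exp_le_exp.mpr h4
        _ = 1 / 4 * Real.exp (-(κ / 2) * ‖v - v0‖ ^ 2) := by
            rw [Real.exp_add, Real.exp_neg, Real.exp_log (by norm_num)]
            norm_num
    calc ∫⁻ v in (closedBall (0 : ℂ) (2 * a * k + δ))ᶜ,
          ENNReal.ofReal (Real.exp (-κ * ‖v - v0‖ ^ 2))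
        ≤ ∫⁻ v in (closedBall (0 : ℂ) (2 * a * k + δ))ᶜ, ENNReal.ofReal (1 / 4)
          * ENNReal.ofReal (Real.exp (-(κ / 2) * ‖v - v0‖ ^ 2)) := by
          apply setLIntegral_mono_ae
          · fun_prop
          · exact Eventually.of_forall h1
      _ ≤ ∫⁻ v, ENNReal.ofReal (1 / 4)
          * ENNReal.ofReal (Real.exp (-(κ / 2) * ‖v - v0‖ ^ 2)) := setLIntegral_le_lintegral _ _
      _ = ENNReal.ofReal (1 / 4) * ENNReal.ofReal (π / (κ / 2)) := by
          rw [lintegral_const_mul' _ _ ENNReal.ofReal_ne_top, lint_gauss (by positivity)]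
      _ = ENNReal.ofReal (π / κ / 2) := by
          rw [← ENNReal.ofReal_mul (by norm_num)]
          congr 1
          field_simp
          norm_num
  have htot := lint_gauss hκ v0
  rw [← lintegral_add_compl _ (isClosed_closedBall (x := (0 : ℂ)) (ε := 2 * a * k + δ)).measurableSet]
    at htot
  have hmain : ENNReal.ofReal (π / κ / 2) ≤ ∫⁻ v in closedBall (0 : ℂ) (2 * a * k + δ),
      ENNReal.ofReal (Real.exp (-κ * ‖v - v0‖ ^ 2)) := by
    have h6 : ENNReal.ofReal (π / κ) = ENNReal.ofReal (π / κ / 2) + ENNReal.ofReal (π / κ / 2) := by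
      rw [← ENNReal.ofReal_add (by positivity) (by positivity)]
      congr 1; ring
    have h7 : ENNReal.ofReal (π / κ / 2) + ENNReal.ofReal (π / κ / 2)
        ≤ (∫⁻ v in closedBall (0 : ℂ) (2 * a * k + δ),
          ENNReal.ofReal (Real.exp (-κ * ‖v - v0‖ ^ 2))) + ENNReal.ofReal (π / κ / 2) := by
      rw [← h6, ← htot]
      gcongr
    exact (ENNReal.add_le_add_iff_right ENNReal.ofReal_ne_top).mp h7
  simp_rw [hexp]
  have h8 : ∫⁻ v in closedBall (0 : ℂ) (2 * a * k + δ),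
      ENNReal.ofReal (A * Real.exp (-κ * ‖v - v0‖ ^ 2))
      = ENNReal.ofReal A * ∫⁻ v in closedBall (0 : ℂ) (2 * a * k + δ),
      ENNReal.ofReal (Real.exp (-κ * ‖v - v0‖ ^ 2)) := by
    rw [← lintegral_const_mul' _ _ ENNReal.ofReal_ne_top]
    congr 1
    funext v
    rw [ENNReal.ofReal_mul hApos.le]
  rw [h8, ← hA]
  calc ENNReal.ofReal A = ENNReal.ofReal (2 * (κ / π)) * (ENNReal.ofReal A
        * ENNReal.ofReal (π / κ / 2)) := by
        rw [← ENNReal.ofReal_mul hApos.le, ← ENNReal.ofReal_mul (by positivity)]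
        congr 1
        field_simp
    _ ≤ _ := by gcongr

/-- Gaussian averaging: exponential square integrability from bounds on exponential means. -/
theorem gauss_average {a a' L k δ C : ℝ} (ha : 0 < a) (haa : a < a') (hL : 0 < L)
    (hδ : 0 < δ) (hC : 0 ≤ C) (hbig : Real.log 4 ≤ L / (4 * a) * δ ^ 2 / 2)
    {f : ℝ → ℂ} (hf : Continuous f) (hfb : ∀ φ, ‖f φ‖ ≤ k * L) {s : Set ℝ}
    (hmean : ∀ v : ℂ, ‖v‖ ≤ 2 * a * k + δ →
      ∫⁻ φ in s, ENNReal.ofReal (Real.exp (inner ℝ v (f φ)))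
        ≤ ENNReal.ofReal (C * Real.exp (L / (4 * a') * ‖v‖ ^ 2))) :
    ∫⁻ φ in s, ENNReal.ofReal (Real.exp (a * ‖f φ‖ ^ 2 / L))
      ≤ ENNReal.ofReal (2 * C / (1 - a / a')) := by
  have ha' : 0 < a' := ha.trans haa
  have hrat : 0 < 1 - a / a' := by
    have : a / a' < 1 := (div_lt_one ha').mpr haa
    linarith
  obtain ⟨κ, hκdef⟩ : ∃ κ, κ = L / (4 * a) := ⟨_, rfl⟩
  have hκ : 0 < κ := by rw [hκdef]; positivity
  have hκ' : L / (4 * a') = κ * (a / a') := by
    rw [hκdef]; field_simp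
  calc ∫⁻ φ in s, ENNReal.ofReal (Real.exp (a * ‖f φ‖ ^ 2 / L))
      ≤ ∫⁻ φ in s, ENNReal.ofReal (2 * (κ / π)) * ∫⁻ v in closedBall (0 : ℂ) (2 * a * k + δ),
        ENNReal.ofReal (Real.exp (-κ * ‖v‖ ^ 2 + inner ℝ v (f φ))) := by
        apply lintegral_mono
        intro φ
        have := gauss_trunc ha hL hδ hbig (f φ) (hfb φ)
        rw [← hκdef] at this
        exact this
    _ = ENNReal.ofReal (2 * (κ / π)) * ∫⁻ φ in s, ∫⁻ v in closedBall (0 : ℂ) (2 * a * k + δ),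
        ENNReal.ofReal (Real.exp (-κ * ‖v‖ ^ 2 + inner ℝ v (f φ))) := by
        rw [lintegral_const_mul' _ _ ENNReal.ofReal_ne_top]
    _ = ENNReal.ofReal (2 * (κ / π)) * ∫⁻ v in closedBall (0 : ℂ) (2 * a * k + δ), ∫⁻ φ in s,
        ENNReal.ofReal (Real.exp (-κ * ‖v‖ ^ 2 + inner ℝ v (f φ))) := by
        congr 1
        rw [lintegral_lintegral_swap]
        apply Measurable.aemeasurable
        apply Continuous.measurable
        apply ENNReal.continuous_ofReal.comp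
        apply Real.continuous_exp.comp
        apply Continuous.add
        · fun_prop
        · exact Continuous.inner continuous_snd (hf.comp continuous_fst)
    _ ≤ ENNReal.ofReal (2 * (κ / π)) * ∫⁻ v in closedBall (0 : ℂ) (2 * a * k + δ),
        ENNReal.ofReal C * ENNReal.ofReal (Real.exp (-(κ * (1 - a / a')) * ‖v - 0‖ ^ 2)) := by
        gcongr ENNReal.ofReal (2 * (κ / π)) * ?_
        apply setLIntegral_mono_ae
        · fun_prop
        · apply Eventually.of_forall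
          intro v hv
          rw [mem_closedBall_zero_iff] at hv
          have h1 : ∀ φ, ENNReal.ofReal (Real.exp (-κ * ‖v‖ ^ 2 + inner ℝ v (f φ)))
              = ENNReal.ofReal (Real.exp (-κ * ‖v‖ ^ 2)) * ENNReal.ofReal (Real.exp (inner ℝ v (f φ))) := by
            intro φ
            rw [Real.exp_add, ENNReal.ofReal_mul (Real.exp_pos _).le]
          simp_rw [h1]
          rw [lintegral_const_mul' _ _ ENNReal.ofReal_ne_top]
          calc ENNReal.ofReal (Real.exp (-κ * ‖v‖ ^ 2))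
                * ∫⁻ φ in s, ENNReal.ofReal (Real.exp (inner ℝ v (f φ)))
              ≤ ENNReal.ofReal (Real.exp (-κ * ‖v‖ ^ 2))
                * ENNReal.ofReal (C * Real.exp (L / (4 * a') * ‖v‖ ^ 2)) := by
                gcongr
                exact hmean v hv
            _ = ENNReal.ofReal C
                * ENNReal.ofReal (Real.exp (-(κ * (1 - a / a')) * ‖v - 0‖ ^ 2)) := by
                rw [← ENNReal.ofReal_mul (Real.exp_pos _).le, ← ENNReal.ofReal_mul hC]
                congr 1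
                rw [hκ', mul_left_comm, ← Real.exp_add, sub_zero]
                congr 2
                ring
    _ ≤ ENNReal.ofReal (2 * (κ / π)) * (ENNReal.ofReal C * ENNReal.ofReal (π / (κ * (1 - a / a')))) := by
        gcongr
        rw [lintegral_const_mul' _ _ ENNReal.ofReal_ne_top]
        gcongr
        rw [← lint_gauss (by positivity : 0 < κ * (1 - a / a')) 0]
        exact setLIntegral_le_lintegral _ _
    _ = ENNReal.ofReal (2 * C / (1 - a / a')) := by
        rw [← ENNReal.ofReal_mul hC, ← ENNReal.ofReal_mul (by positivity)]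
        congr 1
        have := hrat.ne'
        field_simp

end Pool.Agent.Helper22.Marshall
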